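import Mathlib

/-!
# Fields with `w ≥ 3` and vanishing torsion in `I⁴`: definitions
-/

set_option autoImplicit false

namespace Pool.Agent.Helper40.W4

open Polynomial Module

/-! ### The Witt ring by generators and relations -/

section Witt

variable (K : Type) [Field K]

/-- The generator `⟨a⟩` of the group ring. -/
noncomputable def gen {K : Type} [Field K] (a : Kˣ) : MonoidAlgebra ℤ Kˣ := MonoidAlgebra.of ℤ Kˣ a

lemma gen_mul {K : Type} [Field K] (a b : Kˣ) : gen (a * b) = gen a * gen b :=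
  (MonoidAlgebra.of ℤ Kˣ).map_mul a b

lemma gen_one {K : Type} [Field K] : gen (1 : Kˣ) = 1 := (MonoidAlgebra.of ℤ Kˣ).map_one

/-- The relations `⟨ab²⟩ = ⟨a⟩`, `⟨a⟩ + ⟨-a⟩ = 0`, `⟨a⟩ + ⟨b⟩ = ⟨a + b⟩ + ⟨ab(a + b)⟩`. -/
def relSet : Set (MonoidAlgebra ℤ Kˣ) :=
  {x | ∃ a b : Kˣ, x = gen (a * b ^ 2) - gen a} ∪
  {x | ∃ a : Kˣ, x = gen a + gen (-a)} ∪
  {x | ∃ a b c : Kˣ, (a : K) + b = c ∧ x = gen a + gen b - (gen c + gen (a * b * c))}

/-- The ideal of relations. -/
noncomputable def relIdeal : Ideal (MonoidAlgebra ℤ Kˣ) := Ideal.span (relSet K)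

/-- The Witt ring (by generators and relations). -/
def W : Type := MonoidAlgebra ℤ Kˣ ⧸ relIdeal K

noncomputable instance : CommRing (W K) :=
  inferInstanceAs (CommRing (MonoidAlgebra ℤ Kˣ ⧸ relIdeal K))

variable {K}

/-- The projection to the Witt ring. -/
noncomputable def Wmk : MonoidAlgebra ℤ Kˣ →+* W K := Ideal.Quotient.mk (relIdeal K)

lemma Wmk_surjective : Function.Surjective (Wmk (K := K)) := Ideal.Quotient.mk_surjective

lemma Wmk_eq_zero {x : MonoidAlgebra ℤ Kˣ} : Wmk x = 0 ↔ x ∈ relIdeal K :=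
  Ideal.Quotient.eq_zero_iff_mem

lemma Wmk_eq {x y : MonoidAlgebra ℤ Kˣ} : Wmk x = Wmk y ↔ x - y ∈ relIdeal K :=
  Ideal.Quotient.eq

/-- The class of the one-dimensional form `⟨a⟩`. -/
noncomputable def br (a : Kˣ) : W K := Wmk (gen a)

/-- The class of the diagonal form `⟨a₁, …, aₙ⟩`. -/
noncomputable def cl {n : ℕ} (a : Fin n → Kˣ) : W K := ∑ i, br (a i)

variable (K) in
/-- The fundamental ideal. -/
noncomputable def fI : Ideal (W K) := Ideal.span (Set.range fun a : Kˣ => 1 - br a)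

/-- `Iⁿ` is torsion free. -/
def TorsZero (n : ℕ) (K : Type) [Field K] : Prop :=
  ∀ ξ ∈ (fI K) ^ n, ∀ N : ℕ, 0 < N → (N : W K) * ξ = 0 → ξ = 0

lemma br_mul (a b : Kˣ) : br (a * b) = br a * br b := by
  rw [br, gen_mul, map_mul]; rfl

@[simp] lemma br_one : br (1 : Kˣ) = 1 := by
  rw [br, gen_one, map_one]

lemma br_mul_sq (a b : Kˣ) : br (a * b ^ 2) = br a :=
  Wmk_eq.2 (Ideal.subset_span (Or.inl (Or.inl ⟨a, b, rfl⟩)))

lemma br_sq (b : Kˣ) : br (b ^ 2) = 1 := by
  simpa using br_mul_sq 1 b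

lemma br_mul_self (b : Kˣ) : br b * br b = 1 := by
  rw [← br_mul, ← pow_two, br_sq]

lemma br_neg (a : Kˣ) : br (-a) = - br a := by
  rw [eq_neg_iff_add_eq_zero, add_comm, br, br, ← map_add]
  exact Wmk_eq_zero.2 (Ideal.subset_span (Or.inl (Or.inr ⟨a, rfl⟩)))

lemma br_add {a b c : Kˣ} (h : (a : K) + b = c) : br a + br b = br c + br (a * b * c) := by
  have h1 : gen a + gen b - (gen c + gen (a * b * c)) ∈ relIdeal K :=
    Ideal.subset_span (Or.inr ⟨a, b, c, h, rfl⟩)
  have h2 := Wmk_eq.2 h1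
  rw [map_add, map_add] at h2
  exact h2

/-- A ring homomorphism from the Witt ring. -/
noncomputable def Wlift {R : Type} [CommRing R] (f : Kˣ →* R) (h1 : ∀ a : Kˣ, f a * f a = 1)
    (h2 : f (-1) = -1)
    (h3 : ∀ a b c : Kˣ, (a : K) + b = c → f a + f b = f c + f (a * b * c)) : W K →+* R :=
  Ideal.Quotient.lift (relIdeal K) (MonoidAlgebra.lift ℤ R Kˣ f).toRingHom (by
    intro x hx
    have hle : relIdeal K ≤ RingHom.ker (MonoidAlgebra.lift ℤ R Kˣ f).toRingHom := by
      refine Ideal.span_le.2 ?_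
      rintro x ((⟨a, b, rfl⟩ | ⟨a, rfl⟩) | ⟨a, b, c, h, rfl⟩)
      · simp [RingHom.mem_ker, gen, pow_two, h1]
      · have : f (-a) = - f a := by rw [← neg_one_mul a, map_mul, h2, neg_one_mul]
        simp [RingHom.mem_ker, gen, this]
      · have := h3 a b c h
        simp only [SetLike.mem_coe, RingHom.mem_ker, gen, AlgHom.toRingHom_eq_coe, map_sub,
          map_add, RingHom.coe_coe, MonoidAlgebra.lift_of]
        rw [sub_eq_zero]
        exact this
    exact RingHom.mem_ker.1 (hle hx))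

lemma Wlift_br {R : Type} [CommRing R] (f : Kˣ →* R) (h1 h2 h3) (a : Kˣ) :
    Wlift (K := K) f h1 h2 h3 (br a) = f a := by
  have : Wlift (K := K) f h1 h2 h3 (br a) = MonoidAlgebra.lift ℤ R Kˣ f (gen a) := rfl
  rw [this, gen, MonoidAlgebra.lift_of]

/-- Functoriality of the Witt ring. -/
noncomputable def Wmap {L : Type} [Field L] (j : K →+* L) : W K →+* W L :=
  Wlift { toFun := fun a => br (Units.map j.toMonoidHom a)
          map_one' := by simp
          map_mul' := fun a b => by rw [map_mul, br_mul] }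
    (fun a => br_mul_self _)
    (by
      show br (Units.map j.toMonoidHom (-1)) = -1
      have : Units.map j.toMonoidHom (-1) = -1 := by ext; simp
      rw [this, br_neg, br_one])
    (fun a b c h => by
      show br (Units.map j.toMonoidHom a) + br (Units.map j.toMonoidHom b) =
        br (Units.map j.toMonoidHom c) + br (Units.map j.toMonoidHom (a * b * c))
      rw [map_mul, map_mul]
      exact br_add (by
        have := congrArg j h
        simpa using this))

lemma Wmap_br {L : Type} [Field L] (j : K →+* L) (a : Kˣ) :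
    Wmap j (br a) = br (Units.map j.toMonoidHom a) := Wlift_br _ _ _ _ a

lemma Wmap_cl {L : Type} [Field L] (j : K →+* L) {n : ℕ} (a : Fin n → Kˣ) :
    Wmap j (cl a) = cl (fun i => Units.map j.toMonoidHom (a i)) := by
  simp [cl, Wmap_br]

/-- Induction principle: the classes `⟨a⟩` generate the additive group of the Witt ring. -/
lemma W_induction {P : W K → Prop} (hbr : ∀ a, P (br a)) (h0 : P 0)
    (hadd : ∀ x y, P x → P y → P (x + y)) (hneg : ∀ x, P x → P (-x)) (x : W K) : P x := by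
  obtain ⟨y, rfl⟩ := Wmk_surjective x
  induction y using MonoidAlgebra.induction_on with
  | of g => exact hbr g
  | add f g hf hg => rw [map_add]; exact hadd _ _ hf hg
  | smul r f hf =>
    rw [map_zsmul]
    induction r using Int.induction_on with
    | zero => rw [zero_smul]; exact h0
    | succ i ih => rw [add_smul, one_smul]; exact hadd _ _ ih hf
    | pred i ih => rw [sub_smul, one_smul, sub_eq_add_neg]; exact hadd _ _ ih (hneg _ hf)

end Witt

/-! ### Diagonal forms -/

/-- The diagonal form with coefficients `a` is isotropic. -/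
def Isot {K : Type} [Field K] {n : ℕ} (a : Fin n → K) : Prop :=
  ∃ x : Fin n → K, x ≠ 0 ∧ ∑ i, a i * x i ^ 2 = 0

/-- The diagonal form with coefficients `a` is metabolic. -/
def Metab {K : Type} [Field K] {n : ℕ} (a : Fin n → K) : Prop :=
  ∃ U : Submodule K (Fin n → K), (∀ x ∈ U, ∑ i, a i * x i ^ 2 = 0) ∧ 2 * finrank K U = n

/-- `-1` is not a sum of squares. -/
def FReal (L : Type) [Field L] : Prop :=
  ∀ (n : ℕ) (x : Fin n → L), ∑ i, x i ^ 2 = 0 → ∀ i, x i = 0

/-- The form `∑ q i * y i ^ 2` restricted to the hyperplane `∑ w i * y i = 0` is weakly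
isotropic. -/
def WIker {L : Type} [Field L] {ι : Type} [Fintype ι] (q w : ι → L) : Prop :=
  ∃ (n : ℕ) (y : Fin n → ι → L), y ≠ 0 ∧ (∀ k, ∑ i, w i * y k i = 0) ∧
    ∑ k, ∑ i, q i * y k i ^ 2 = 0

/-- Polynomials of odd degree have roots. -/
def OddClosed (k : Type) [Field k] : Prop := ∀ p : k[X], Odd p.natDegree → ∃ x, p.IsRoot x

/-- Binary quadratic forms are universal. -/
def Univ (E : Type) [Field E] : Prop :=
  ∀ α β : E, α ≠ 0 → β ≠ 0 → ∃ x y : E, x ^ 2 - α * y ^ 2 = β

/-! ### Discrete places -/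

/-- A discrete valuation of `K` with a homomorphism `res` from the valuation ring to `κ` with kernel the
maximal ideal. -/
structure DV (K κ : Type) [Field K] [Field κ] where
  /-- the valuation ring -/
  O : Subring K
  /-- the residue map -/
  res : O →+* κ
  /-- the valuation -/
  ord : Kˣ →* Multiplicative ℤ
  /-- a uniformizer -/
  π : Kˣ
  ord_π : ord π = Multiplicative.ofAdd 1
  mem_O : ∀ x : Kˣ, (x : K) ∈ O ↔ 0 ≤ (ord x).toAdd
  res_eq_zero : ∀ (x : Kˣ) (h : (x : K) ∈ O), res ⟨x, h⟩ = 0 ↔ 0 < (ord x).toAdd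

namespace DV

variable {K κ : Type} [Field K] [Field κ] (P : DV K κ)

/-- `x π ^ (-ord x)` -/
noncomputable def unitPart (x : Kˣ) : Kˣ := x * P.π ^ (-(P.ord x).toAdd)

lemma ord_unitPart (x : Kˣ) : P.ord (P.unitPart x) = 1 := by
  rw [unitPart, map_mul, map_zpow, P.ord_π]
  apply Multiplicative.toAdd.injective
  simp

lemma unitPart_mul (x y : Kˣ) : P.unitPart (x * y) = P.unitPart x * P.unitPart y := by
  simp only [unitPart, map_mul, toAdd_mul, neg_add, zpow_add]
  rw [mul_mul_mul_comm]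

lemma unitPart_mem (x : Kˣ) : ((P.unitPart x : Kˣ) : K) ∈ P.O :=
  (P.mem_O _).2 (by rw [P.ord_unitPart]; simp)

lemma res_unitPart_ne (x : Kˣ) : P.res ⟨(P.unitPart x : Kˣ), P.unitPart_mem x⟩ ≠ 0 := by
  rw [Ne, P.res_eq_zero, P.ord_unitPart]
  simp

/-- The residue of the unit part. -/
noncomputable def ac : Kˣ →* κˣ where
  toFun x := Units.mk0 (P.res ⟨(P.unitPart x : Kˣ), P.unitPart_mem x⟩) (P.res_unitPart_ne x)
  map_one' := by
    ext
    simp [unitPart]
    exact map_one P.res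
  map_mul' x y := by
    ext
    simp only [Units.val_mk0, Units.val_mul, ← map_mul]
    congr 1
    ext
    simp [unitPart_mul]

lemma ac_apply (x : Kˣ) : (P.ac x : κ) = P.res ⟨(P.unitPart x : Kˣ), P.unitPart_mem x⟩ := rfl

lemma unitPart_of_ord (x : Kˣ) (h : P.ord x = 1) : P.unitPart x = x := by
  simp [unitPart, h]

lemma mem_of_ord (x : Kˣ) (h : P.ord x = 1) : (x : K) ∈ P.O := (P.mem_O _).2 (by simp [h])

lemma ac_of_ord (x : Kˣ) (h : P.ord x = 1) : (P.ac x : κ) = P.res ⟨x, P.mem_of_ord x h⟩ := by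
  rw [ac_apply]
  congr 1
  ext
  simp [P.unitPart_of_ord x h]

lemma ord_neg_one : P.ord (-1) = 1 := by
  have h : P.ord (-1) * P.ord (-1) = 1 := by rw [← map_mul]; simp
  apply Multiplicative.toAdd.injective
  have h2 := congrArg Multiplicative.toAdd h
  simp only [toAdd_mul, toAdd_one] at h2 ⊢
  omega

lemma ac_neg_one : P.ac (-1) = -1 := by
  ext
  rw [P.ac_of_ord _ P.ord_neg_one]
  have : (⟨((-1 : Kˣ) : K), P.mem_of_ord _ P.ord_neg_one⟩ : P.O) = -1 := by ext; simp
  rw [this, map_neg, map_one]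
  simp

lemma ord_neg (x : Kˣ) : P.ord (-x) = P.ord x := by
  rw [← neg_one_mul, map_mul, P.ord_neg_one, one_mul]

lemma ac_neg (x : Kˣ) : P.ac (-x) = -P.ac x := by
  rw [← neg_one_mul, map_mul, P.ac_neg_one, neg_one_mul]

end DV

/-- `d` is the residue homomorphism with respect to the uniformizer of `P`. -/
def IsRes {K κ : Type} [Field K] [Field κ] (P : DV K κ) (d : W K →+ W κ) : Prop :=
  (∀ a : Kˣ, Even (P.ord a).toAdd → d (br a) = 0) ∧
  ∀ a : Kˣ, Odd (P.ord a).toAdd → d (br a) = br (P.ac a)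

/-- The `p`-adic place of `F(X)`. -/
def PolyDV {F : Type} [Field F] (p : F[X]) [Fact (Irreducible p)]
    (P : DV (RatFunc F) (AdjoinRoot p)) : Prop :=
  (∀ (g : F[X]) (u : (RatFunc F)ˣ), ¬ p ∣ g → (u : RatFunc F) = algebraMap F[X] (RatFunc F) g →
    P.ord u = 1 ∧ (P.ac u : AdjoinRoot p) = AdjoinRoot.mk p g) ∧
  (P.π : RatFunc F) = algebraMap F[X] (RatFunc F) p

/-! ### Local-global principle -/

/-- The form `c` is isotropic over all factors of `M[X]/(p)`. -/
def LocIso {M : Type} [Field M] (p : M[X]) {n : ℕ} (c : Fin n → M[X]) : Prop :=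
  ∃ y : Fin n → M[X], p ∣ ∑ i, c i * y i ^ 2 ∧ Ideal.span (insert p (Set.range y)) = ⊤

/-- The local-global principle with respect to two embeddings for forms of dimension at least three
over all finite extensions. -/
def LGP {F M₁ M₂ : Type} [Field F] [Field M₁] [Field M₂] (j₁ : F →+* M₁) (j₂ : F →+* M₂) : Prop :=
  ∀ p : F[X], p.Monic → Irreducible p → ∀ n : ℕ, 3 ≤ n → ∀ c : Fin n → F[X], (∀ i, ¬ p ∣ c i) →
    LocIso (p.map j₁) (fun i => (c i).map j₁) → LocIso (p.map j₂) (fun i => (c i).map j₂) →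
    ∃ y : Fin n → F[X], p ∣ ∑ i, c i * y i ^ 2 ∧ ∃ i, ¬ p ∣ y i

/-! ### The curve -/

/-- `a X⁶ + X⁵ + c`. -/
noncomputable def fpoly {k : Type} [Field k] (a c : k) : k[X] := C a * X ^ 6 + X ^ 5 + C c

/-- The ring `k[X, Y] / (Y² - f)`, `f = a X⁶ + X⁵ + c`. -/
abbrev BB (k : Type) [Field k] (a c : k) := QuadraticAlgebra k[X] (fpoly a c) 0

lemma fpoly_map {k k' : Type} [Field k] [Field k'] (φ : k →+* k') (a c : k) :
    (fpoly a c).map φ = fpoly (φ a) (φ c) := by
  simp [fpoly]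

/-- Functoriality. -/
noncomputable def bmap {k k' : Type} [Field k] [Field k'] (φ : k →+* k') {a c : k} {a' c' : k'}
    (ha : φ a = a') (hc : φ c = c') : BB k a c →+* BB k' a' c' where
  toFun w := ⟨w.re.map φ, w.im.map φ⟩
  map_one' := by ext <;> simp [QuadraticAlgebra.re_one, QuadraticAlgebra.im_one]
  map_mul' x y := by
    subst ha hc
    ext1 <;> simp [← fpoly_map]
  map_zero' := by ext <;> simp
  map_add' x y := by ext1 <;> simp

/-- The invariant: there is no ideal of odd codimension whose class is invariant under `σ`. -/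
structure Good (k : Type) [Field k] (a s : k) (σ : k ≃+* k) : Prop where
  fa : σ a = a
  fs : σ s = -s
  nsq : ¬ IsSquare a
  s0 : s ≠ 0
  sqf : Squarefree (fpoly a (s ^ 2))
  nq : ∀ I : Ideal (BB k a (s ^ 2)), Odd (finrank k (BB k a (s ^ 2) ⧸ I)) →
    ∀ x y : BB k a (s ^ 2), x ≠ 0 → y ≠ 0 →
      Ideal.span {x} * I ≠ Ideal.span {y} * I.map (bmap (a := a) (c := s ^ 2) (a' := a) (c' := s ^ 2)
        (σ : k →+* k) fa (by simp [fs]))

/-- The invariant for the field `E` with `c` in `E`, `k = E(√c)`. -/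
def GE (E : Type) [Field E] (a c : E) : Prop :=
  ¬ IsSquare c ∧ ∀ (k : Type) [Field k] [Algebra E k] (s : k), s ^ 2 = algebraMap E k c →
    IntermediateField.adjoin E {s} = ⊤ → ∀ σ : k ≃ₐ[E] k, σ s = -s →
      Good k (algebraMap E k a) s σ.toRingEquiv

end Pool.Agent.Helper40.W4
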