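import Pool.Agent.Helper40.W4.Spec

set_option autoImplicit false

/-! The formal step. -/

namespace Pool.Agent.Helper40.W4

open Polynomial Module

lemma bmap_apply {k k' : Type} [Field k] [Field k'] (φ : k →+* k') {a c : k} {a' c' : k'}
    (ha : φ a = a') (hc : φ c = c') (w : BB k a c) :
    bmap φ ha hc w = ⟨w.re.map φ, w.im.map φ⟩ := rfl

lemma bmap_injective {k k' : Type} [Field k] [Field k'] (φ : k →+* k') {a c : k} {a' c' : k'}
    (ha : φ a = a') (hc : φ c = c') : Function.Injective (bmap φ ha hc) := by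
  intro x y hxy
  rw [bmap_apply, bmap_apply] at hxy
  have h1 := congrArg QuadraticAlgebra.re hxy
  have h2 := congrArg QuadraticAlgebra.im hxy
  simp only at h1 h2
  ext1
  · exact Polynomial.map_injective φ φ.injective h1
  · exact Polynomial.map_injective φ φ.injective h2

/-- The ring `B` is not finite-dimensional. -/
lemma BB_not_finite {k : Type} [Field k] (a c : k) : ¬ Module.Finite k (BB k a c) := by
  intro h
  let f : BB k a c →ₗ[k] k[X] :=
    { toFun := fun w => w.re, map_add' := fun _ _ => rfl, map_smul' := fun _ _ => rfl }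
  have hf : Function.Surjective f := fun p => ⟨⟨p, 0⟩, rfl⟩
  exact Polynomial.not_finite (R := k) (Module.Finite.of_surjective f hf)

lemma ne_bot_of_odd {k : Type} [Field k] {a c : k} {I : Ideal (BB k a c)}
    (h : Odd (finrank k (BB k a c ⧸ I))) : I ≠ ⊥ := by
  rintro rfl
  have h1 : ¬ Module.Finite k (BB k a c ⧸ (⊥ : Ideal (BB k a c))) := by
    intro h1
    refine BB_not_finite a c ?_
    exact Module.Finite.equiv ((Submodule.quotEquivOfEqBot (⊥ : Ideal (BB k a c)) rfl).restrictScalars k)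
  rw [Module.finrank_of_not_finite h1] at h
  exact absurd h (by decide)

/-- Quotients by nonzero ideals are finite-dimensional. -/
lemma BB_finite_quot (hDEGB : S_DEGB) {k : Type} [Field k] [CharZero k] {a c : k} (ha : ¬ IsSquare a)
    {I : Ideal (BB k a c)} (hI : I ≠ ⊥) : FiniteDimensional k (BB k a c ⧸ I) := by
  obtain ⟨w, hw, hw0⟩ := Submodule.exists_mem_ne_zero_of_ne_bot hI
  obtain ⟨-, h, -⟩ := hDEGB k a c ha
  have h1 := (h w hw0).2.2.2
  have hle : Ideal.span {w} ≤ I := (Ideal.span_singleton_le_iff_mem I).2 hw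
  let f : (BB k a c ⧸ Ideal.span {w}) →ₗ[k] (BB k a c ⧸ I) := (Ideal.Quotient.factorₐ k hle).toLinearMap
  have hf : Function.Surjective f := Ideal.Quotient.factor_surjective hle
  exact Module.Finite.of_surjective f hf

/-- Multiplication by a principal ideal does not change the parity of the codimension. -/
lemma BB_parity (hDEGB : S_DEGB) (hDED : S_DED) (hADD : S_ADD) {k : Type} [Field k] [CharZero k]
    {a c : k} (ha : ¬ IsSquare a) (hf : Squarefree (fpoly a c)) {I : Ideal (BB k a c)} (hI : I ≠ ⊥)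
    {x : BB k a c} (hx : x ≠ 0) :
    Odd (finrank k (BB k a c ⧸ (Ideal.span {x} * I))) ↔ Odd (finrank k (BB k a c ⧸ I)) := by
  have := hDED k a c ha hf
  have hx' : Ideal.span {x} ≠ ⊥ := by rwa [Ne, Ideal.span_singleton_eq_bot]
  rw [hADD k (BB k a c) (fun J hJ => BB_finite_quot hDEGB ha hJ) _ _ hx' hI]
  obtain ⟨-, h, -⟩ := hDEGB k a c ha
  have h1 := h x hx
  have h2 : Even (finrank k (BB k a c ⧸ Ideal.span {x})) := by
    rw [h1.2.2.1]; exact h1.2.1
  rw [Nat.odd_add]
  constructor
  · intro h3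
    by_contra h4
    rw [Nat.not_odd_iff_even] at h4
    exact (Nat.not_odd_iff_even.2 h2) (h3.2 h4)
  · intro h3
    constructor
    · intro h4; exact absurd h2 (Nat.not_even_iff_odd.2 h4)
    · intro h4; exact absurd h4 (Nat.not_even_iff_odd.2 h3)

lemma form_aux (hDEGB : S_DEGB) (hDED : S_DED) (hADD : S_ADD) (hEL3 : S_EL3)
    (k k' : Type) [Field k] [Field k'] [CharZero k] [Algebra k k'] (a s : k) (σ : k ≃+* k)
    (σ' : k' ≃+* k') (hσ : ∀ x, σ' (algebraMap k k' x) = algebraMap k k' (σ x))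
    (hG : Good k a s σ) (ha : ¬ IsSquare (algebraMap k k' a)) (hE : EL2 k k' a (s ^ 2))
    (c' : k') (hc' : algebraMap k k' (s ^ 2) = c') (ha' : (σ' : k' →+* k') (algebraMap k k' a) =
      algebraMap k k' a) (hσc' : (σ' : k' →+* k') c' = c')
    (hsq : Squarefree (fpoly (algebraMap k k' a) c'))
    (I' : Ideal (BB k' (algebraMap k k' a) c'))
    (hI' : Odd (finrank k' (BB k' (algebraMap k k' a) c' ⧸ I')))
    (x y : BB k' (algebraMap k k' a) c') (hx : x ≠ 0) (hy : y ≠ 0)
    (hxy : Ideal.span {x} * I' = Ideal.span {y} * I'.map (bmap (σ' : k' →+* k') ha' hσc')) :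
    False := by
  subst hc'
  have hk' : CharZero k' := charZero_of_injective_algebraMap (algebraMap k k').injective
  obtain ⟨hfa, hfs, hnsq, hs0, hsqf, hnq⟩ := hG
  have hfc : (σ : k →+* k) (s ^ 2) = s ^ 2 := by simp [hfs]
  set β := bmap (algebraMap k k') (a := a) (c := s ^ 2) rfl rfl with hβ
  set τ := bmap (a := a) (c := s ^ 2) (a' := a) (c' := s ^ 2) (σ : k →+* k) hfa hfc with hτ
  set τ' := bmap (σ' : k' →+* k') ha' hσc' with hτ'
  have hβi : Function.Injective β := bmap_injective _ _ _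
  have hτi : Function.Injective τ := bmap_injective _ _ _
  have hτ'i : Function.Injective τ' := bmap_injective _ _ _
  have hcomp : τ'.comp β = β.comp τ := by
    refine RingHom.ext fun w => ?_
    have h1 : (τ'.comp β) w = ⟨(w.re.map (algebraMap k k')).map (σ' : k' →+* k'),
      (w.im.map (algebraMap k k')).map (σ' : k' →+* k')⟩ := rfl
    have h2 : (β.comp τ) w = ⟨(w.re.map (σ : k →+* k)).map (algebraMap k k'),
      (w.im.map (σ : k →+* k)).map (algebraMap k k')⟩ := rfl
    have : (σ' : k' →+* k').comp (algebraMap k k') = (algebraMap k k').comp (σ : k →+* k) :=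
      RingHom.ext fun z => hσ z
    rw [h1, h2, Polynomial.map_map, Polynomial.map_map, Polynomial.map_map, Polynomial.map_map,
      this]
  have hdom := (hDEGB k a (s ^ 2) hnsq).1
  have hdom' := (hDEGB k' (algebraMap k k' a) (algebraMap k k' (s ^ 2)) ha).1
  have hD := hDED k a (s ^ 2) hnsq hsqf
  have hD' := hDED k' (algebraMap k k' a) (algebraMap k k' (s ^ 2)) ha hsq
  have hI'0 := ne_bot_of_odd hI'
  obtain ⟨I, x1, y1, hI0, hx1, hy1, h1⟩ := hE I' hI'0
  have hIβ0 : I.map β ≠ ⊥ := by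
    rw [Ne, Ideal.map_eq_bot_iff_of_injective hβi]; exact hI0
  -- parity
  have hodd' : Odd (finrank k' (BB k' (algebraMap k k' a) (algebraMap k k' (s ^ 2)) ⧸ I.map β)) := by
    rw [← BB_parity hDEGB hDED hADD ha hsq hIβ0 hy1, ← h1]
    exact (BB_parity hDEGB hDED hADD ha hsq hI'0 hx1).2 hI'
  have hodd : Odd (finrank k (BB k a (s ^ 2) ⧸ I)) := by
    rw [← (hEL3 k k' a (s ^ 2) ha I hI0).1]; exact hodd'
  -- the relation for `I`
  have h2 : Ideal.span {τ' x1} * I'.map τ' = Ideal.span {τ' y1} * (I.map τ).map β := by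
    have := congrArg (Ideal.map τ') h1
    rw [Ideal.map_mul, Ideal.map_mul, Ideal.map_span, Ideal.map_span, Set.image_singleton,
      Set.image_singleton, Ideal.map_map, hcomp] at this
    rw [this, Ideal.map_map]
  have hτx1 : τ' x1 ≠ 0 := (map_ne_zero_iff τ' hτ'i).2 hx1
  have hτy1 : τ' y1 ≠ 0 := (map_ne_zero_iff τ' hτ'i).2 hy1
  have h3 : Ideal.span {x * τ' x1 * y1} * I.map β =
      Ideal.span {y * x1 * τ' y1} * (I.map τ).map β := by
    calc Ideal.span {x * τ' x1 * y1} * I.map β
        = Ideal.span {x} * Ideal.span {τ' x1} * (Ideal.span {y1} * I.map β) := by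
          rw [← Ideal.span_singleton_mul_span_singleton, ← Ideal.span_singleton_mul_span_singleton]
          ring
      _ = Ideal.span {τ' x1} * Ideal.span {x1} * (Ideal.span {x} * I') := by
          rw [← h1]; ring
      _ = Ideal.span {y} * Ideal.span {x1} * (Ideal.span {τ' x1} * I'.map τ') := by
          rw [hxy]; ring
      _ = Ideal.span {y * x1 * τ' y1} * (I.map τ).map β := by
          rw [h2, ← Ideal.span_singleton_mul_span_singleton,
            ← Ideal.span_singleton_mul_span_singleton]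
          ring
  have hX0 : x * τ' x1 * y1 ≠ 0 := mul_ne_zero (mul_ne_zero hx hτx1) hy1
  have hIτ0 : I.map τ ≠ ⊥ := by
    rw [Ne, Ideal.map_eq_bot_iff_of_injective hτi]; exact hI0
  obtain ⟨z, hz, hz0⟩ := Submodule.exists_mem_ne_zero_of_ne_bot hIτ0
  obtain ⟨J, hJ⟩ := Ideal.dvd_span_singleton.2 hz
  have hJ0 : J ≠ ⊥ := by
    rintro rfl
    rw [Ideal.mul_bot, Ideal.span_singleton_eq_bot] at hJ
    exact hz0 hJ
  have h4 : Ideal.span {x * τ' x1 * y1} * (I * J).map β =
      Ideal.span {y * x1 * τ' y1 * β z} := by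
    rw [Ideal.map_mul, ← mul_assoc, h3, mul_assoc, ← Ideal.map_mul, ← hJ, Ideal.map_span,
      Set.image_singleton, Ideal.span_singleton_mul_span_singleton]
  have h5 : ∃ w', (I * J).map β = Ideal.span {w'} := by
    have h6 : y * x1 * τ' y1 * β z ∈ Ideal.span {x * τ' x1 * y1} := by
      have : Ideal.span {y * x1 * τ' y1 * β z} ≤ Ideal.span {x * τ' x1 * y1} := by
        rw [← h4]; exact Ideal.mul_le_left
      exact this (Ideal.mem_span_singleton_self _)
    obtain ⟨w', hw'⟩ := Ideal.mem_span_singleton.1 h6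
    refine ⟨w', ?_⟩
    rw [hw', ← Ideal.span_singleton_mul_span_singleton (x * τ' x1 * y1) w'] at h4
    exact (Ideal.span_singleton_mul_right_inj hX0).1 h4
  have hIJ0 : I * J ≠ ⊥ := by
    rw [Ne, Ideal.mul_eq_bot]; tauto
  obtain ⟨w, hw⟩ := (hEL3 k k' a (s ^ 2) ha (I * J) hIJ0).2 h5
  have hw0 : w ≠ 0 := by
    rintro rfl
    apply hIJ0
    rw [hw]; simp
  refine hnq I hodd z w hz0 hw0 ?_
  show Ideal.span {z} * I = Ideal.span {w} * I.map τ
  rw [hJ, ← hw]
  ring

theorem form_thm (hDEGB : S_DEGB) (hDED : S_DED) (hADD : S_ADD) (hEL3 : S_EL3) : S_FORM := by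
  intro k k' _ _ _ _ a s σ σ' hσ hG ha hE
  have hk' : CharZero k' := charZero_of_injective_algebraMap (algebraMap k k').injective
  have hsq : Squarefree (fpoly (algebraMap k k' a) (algebraMap k k' s ^ 2)) := by
    have h1 : (fpoly a (s ^ 2)).Separable := PerfectField.separable_iff_squarefree.2 hG.sqf
    have h2 := (h1.map (f := algebraMap k k')).squarefree
    rwa [fpoly_map, map_pow] at h2
  refine ⟨?_, ?_, ha, ?_, hsq, ?_⟩
  · rw [hσ, hG.fa]
  · rw [hσ, hG.fs, map_neg]
  · exact (_root_.map_ne_zero _).2 hG.s0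
  · intro I' hI' x y hx hy hxy
    exact form_aux hDEGB hDED hADD hEL3 k k' a s σ σ' hσ hG ha hE (algebraMap k k' s ^ 2)
      (map_pow _ _ _) _ _ hsq I' hI' x y hx hy hxy

end Pool.Agent.Helper40.W4
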