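import Pool.Agent.Helper40.W4.Spec

set_option autoImplicit false

/-! Definitions for the final statement and the assembly. -/

namespace Pool.Agent.Helper40.W4.Final

open Pool.Agent.Helper40.W4 Polynomial

/-- The quadratic form `φ` is weakly isotropic: the orthogonal sum `n × φ` of `n` copies of `φ` is isotropic
for some `n`. -/
def WeaklyIsotropic {K V : Type} [Field K] [AddCommGroup V] [Module K V]
    (φ : QuadraticForm K V) : Prop :=
  ∃ n : ℕ, ¬ (QuadraticMap.pi fun _ : Fin n => φ).Anisotropic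

/-- `ψ` is a subform of `φ`: `φ` is isometric to `ψ ⊥ χ` for some (finite-dimensional) form `χ`. -/
def IsSubform {K V W : Type} [Field K] [AddCommGroup V] [Module K V] [AddCommGroup W] [Module K W]
    (ψ : QuadraticForm K W) (φ : QuadraticForm K V) : Prop :=
  ∃ (U : Type) (_ : AddCommGroup U) (_ : Module K U) (_ : FiniteDimensional K U)
    (χ : QuadraticForm K U), Nonempty (φ.IsometryEquiv (ψ.prod χ))

/-- `φ` is minimal weakly isotropic: it is weakly isotropic, and no proper subform is. -/
def MinimalWeaklyIsotropic {K V : Type} [Field K] [AddCommGroup V] [Module K V]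
    (φ : QuadraticForm K V) : Prop :=
  WeaklyIsotropic φ ∧
    ∀ (W : Type) [AddCommGroup W] [Module K W] [FiniteDimensional K W] (ψ : QuadraticForm K W),
      IsSubform ψ φ → Module.finrank K W < Module.finrank K V → ¬ WeaklyIsotropic ψ

/-- The `w`-invariant: the supremum of the dimensions of the (regular, finite-dimensional) minimal weakly
isotropic forms over `K`. -/
noncomputable def wInvariant (K : Type) [Field K] : ℕ∞ :=
  sSup {d : ℕ∞ | ∃ (V : Type) (_ : AddCommGroup V) (_ : Module K V) (_ : FiniteDimensional K V)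
    (φ : QuadraticForm K V), (QuadraticMap.polarBilin φ).Nondegenerate ∧
      MinimalWeaklyIsotropic φ ∧ d = Module.finrank K V}

/-- The element `⟨a₁⟩ + … + ⟨aₙ⟩` of the group ring `ℤ[Kˣ]`. -/
noncomputable def diagSum {K : Type} [Field K] {n : ℕ} (a : Fin n → Kˣ) : MonoidAlgebra ℤ Kˣ :=
  ∑ i, MonoidAlgebra.of ℤ Kˣ (a i)

/-- The diagonal form `⟨a₁, …, aₙ⟩`. -/
noncomputable def diag {K : Type} [Field K] {n : ℕ} (a : Fin n → Kˣ) : QuadraticForm K (Fin n → K) :=
  QuadraticMap.weightedSumSquares K (fun i => (a i : K))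

/-- The relations of the Witt ring: isometric diagonal forms are identified, and the hyperbolic plane
`⟨1, -1⟩` is zero. -/
noncomputable def wittIdeal (K : Type) [Field K] : Ideal (MonoidAlgebra ℤ Kˣ) :=
  Ideal.span ({x | ∃ (n : ℕ) (a b : Fin n → Kˣ), (diag a).Equivalent (diag b) ∧
      x = diagSum a - diagSum b} ∪ {diagSum ![1, -1]})

/-- The Witt ring `W K` (of a field of characteristic not two, in which all regular forms are diagonal up to
isometry): the ring `ℤ[Kˣ]` modulo these relations. -/
def WittRing (K : Type) [Field K] : Type := MonoidAlgebra ℤ Kˣ ⧸ wittIdeal K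

noncomputable instance (K : Type) [Field K] : CommRing (WittRing K) :=
  inferInstanceAs (CommRing (MonoidAlgebra ℤ Kˣ ⧸ wittIdeal K))

/-- The class of a diagonal form in the Witt ring. -/
noncomputable def wittClass {K : Type} [Field K] {n : ℕ} (a : Fin n → Kˣ) : WittRing K :=
  Ideal.Quotient.mk (wittIdeal K) (diagSum a)

/-- The fundamental ideal `I K`: the ideal of the classes of the forms of even dimension. -/
noncomputable def fundamentalIdeal (K : Type) [Field K] : Ideal (WittRing K) :=
  Ideal.span {x | ∃ (n : ℕ) (a : Fin n → Kˣ), Even n ∧ x = wittClass a}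

/-- `Iⁿ K` is torsion free: `Iⁿ_tors K = 0`. -/
def ITorsZero (n : ℕ) (K : Type) [Field K] : Prop :=
  ∀ ξ ∈ fundamentalIdeal K ^ n, (∃ N : ℕ, 0 < N ∧ N • ξ = 0) → ξ = 0

section w

variable {K : Type} [Field K] {q : Fin 3 → K}

/-- A weakly isotropic form of dimension three without weakly isotropic hyperplanes. -/
theorem w_ge (h2 : (2 : K) ≠ 0) (hq : ∀ i, q i ≠ 0)
    (hwi : ∃ (n : ℕ) (y : Fin n → Fin 3 → K), y ≠ 0 ∧ ∑ k, ∑ i, q i * y k i ^ 2 = 0)
    (hmin : ∀ w : Fin 3 → K, w ≠ 0 → ¬ WIker q w) : 3 ≤ wInvariant K := by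
  set φ : QuadraticForm K (Fin 3 → K) := QuadraticMap.weightedSumSquares K q with hφd
  have hφ : ∀ x : Fin 3 → K, φ x = ∑ i, q i * x i ^ 2 := by
    intro x
    rw [hφd, QuadraticMap.weightedSumSquares_apply]
    refine Finset.sum_congr rfl fun i _ => ?_
    rw [smul_eq_mul, pow_two]
  -- regularity
  have hpol : ∀ (x : Fin 3 → K) (i : Fin 3),
      QuadraticMap.polarBilin φ x (Pi.single i 1) = 2 * q i * x i := by
    intro x i
    rw [QuadraticMap.polarBilin_apply_apply, QuadraticMap.polar, hφ, hφ, hφ,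
      ← Finset.sum_sub_distrib, ← Finset.sum_sub_distrib]
    rw [Finset.sum_eq_single i]
    · simp; ring
    · intro j _ hj
      rw [Pi.add_apply, Pi.single_eq_of_ne hj]; ring
    · intro h; exact absurd (Finset.mem_univ i) h
  have hsep : ∀ x : Fin 3 → K, (∀ y, QuadraticMap.polarBilin φ x y = 0) → x = 0 := by
    intro x hx
    funext i
    have := hx (Pi.single i 1)
    rw [hpol] at this
    exact (mul_eq_zero.1 this).resolve_left (mul_ne_zero h2 (hq i))
  have hreg : (QuadraticMap.polarBilin φ).Nondegenerate := by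
    refine ⟨hsep, ?_⟩
    intro y hy
    refine hsep y fun x => ?_
    have := hy x
    rw [QuadraticMap.polarBilin_apply_apply] at this ⊢
    rw [QuadraticMap.polar_comm]; exact this
  -- weak isotropy
  have hwi' : WeaklyIsotropic φ := by
    obtain ⟨n, y, hy, hs⟩ := hwi
    refine ⟨n, ?_⟩
    rw [QuadraticMap.not_anisotropic_iff_exists]
    refine ⟨y, hy, ?_⟩
    rw [QuadraticMap.pi_apply, ← hs]
    exact Finset.sum_congr rfl fun k _ => hφ _
  -- minimality
  have hmin' : MinimalWeaklyIsotropic φ := by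
    refine ⟨hwi', ?_⟩
    intro W _ _ _ ψ hsub hdim hψ
    obtain ⟨U, _, _, _, χ, ⟨e⟩⟩ := hsub
    obtain ⟨n, hn⟩ := hψ
    rw [QuadraticMap.not_anisotropic_iff_exists] at hn
    obtain ⟨x, hx, hx0⟩ := hn
    -- the embedding of `W`
    set j : W →ₗ[K] (Fin 3 → K) := e.symm.toLinearEquiv.toLinearMap ∘ₗ LinearMap.inl K W U
      with hj
    have hjinj : Function.Injective j := by
      rw [hj, LinearMap.coe_comp]
      exact e.symm.toLinearEquiv.injective.comp LinearMap.inl_injective
    have hjφ : ∀ v, φ (j v) = ψ v := by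
      intro v
      have := e.symm.map_app (v, 0)
      rw [QuadraticMap.prod_apply, map_zero, add_zero] at this
      exact this
    have hlt : LinearMap.range j < ⊤ := by
      refine lt_top_iff_ne_top.2 fun htop => ?_
      have h1 := LinearMap.finrank_range_of_inj hjinj
      rw [htop, finrank_top] at h1
      omega
    obtain ⟨g, hg, hgle⟩ := Submodule.exists_le_ker_of_lt_top _ hlt
    set w : Fin 3 → K := fun i => g (Pi.single i 1) with hw
    have hgw : ∀ v : Fin 3 → K, g v = ∑ i, w i * v i := by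
      intro v
      conv_lhs => rw [← Finset.univ_sum_single v]
      rw [map_sum]
      refine Finset.sum_congr rfl fun i _ => ?_
      have : (Pi.single i (v i) : Fin 3 → K) = v i • Pi.single i 1 := by
        rw [← Pi.single_smul, smul_eq_mul, mul_one]
      rw [this, map_smul, smul_eq_mul, mul_comm]
    have hw0 : w ≠ 0 := by
      intro h0
      apply hg
      refine LinearMap.ext fun v => ?_
      rw [hgw v, h0]
      simp
    refine hmin w hw0 ⟨n, fun k => j (x k), ?_, ?_, ?_⟩
    · intro h0
      apply hx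
      funext k
      have h6 : j (x k) = 0 := congrFun h0 k
      exact hjinj (h6.trans (map_zero j).symm)
    · intro k
      rw [← hgw]
      exact hgle ⟨x k, rfl⟩
    · have h5 : ∑ k, φ (j (x k)) = 0 := by
        rw [QuadraticMap.pi_apply] at hx0
        rw [← hx0]
        exact Finset.sum_congr rfl fun k _ => hjφ _
      rw [← h5]
      refine Finset.sum_congr rfl fun k _ => ?_
      rw [hφ]
  refine le_sSup ⟨Fin 3 → K, inferInstance, inferInstance, inferInstance, φ, hreg, hmin', ?_⟩
  simp

end w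

section witt

variable {K : Type} [Field K]

lemma diagSum_eq {n : ℕ} (a : Fin n → Kˣ) : diagSum a = ∑ i, gen (a i) := rfl

lemma mk_diagSum {n : ℕ} (a : Fin n → Kˣ) : Wmk (diagSum a) = cl a := by
  rw [diagSum_eq, map_sum]; rfl

lemma diag_apply {n : ℕ} (a : Fin n → Kˣ) (x : Fin n → K) : diag a x = ∑ i, (a i : K) * x i ^ 2 := by
  rw [diag, QuadraticMap.weightedSumSquares_apply]
  refine Finset.sum_congr rfl fun i _ => ?_
  rw [smul_eq_mul, pow_two]

variable [CharZero K]

/-- Isometric forms have the same class. -/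
lemma cl_eq_of_equivalent (hS : S_SOUND) {n : ℕ} {a b : Fin n → Kˣ}
    (h : (diag a).Equivalent (diag b)) : cl a = cl b := by
  obtain ⟨e⟩ := h
  have h1 : cl (Fin.append a (fun i => -b i)) = 0 := by
    rw [(hS K).1]
    -- the graph of the isometry
    let f : (Fin n → K) →ₗ[K] (Fin (n + n) → K) :=
      { toFun := fun x => Fin.append x (e x)
        map_add' := fun x y => by
          funext i
          refine Fin.addCases (fun i => ?_) (fun i => ?_) i
          · simp only [Fin.append_left, Pi.add_apply]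
          · simp only [Fin.append_right, Pi.add_apply, map_add]
        map_smul' := fun r x => by
          funext i
          refine Fin.addCases (fun i => ?_) (fun i => ?_) i
          · simp only [Fin.append_left, Pi.smul_apply, RingHom.id_apply]
          · simp only [Fin.append_right, Pi.smul_apply, map_smul, RingHom.id_apply] }
    have hf : Function.Injective f := by
      intro x y hxy
      funext i
      have := congrFun hxy (Fin.castAdd n i)
      simpa [f] using this
    refine ⟨LinearMap.range f, ?_, ?_⟩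
    · rintro _ ⟨x, rfl⟩
      rw [Fin.sum_univ_add]
      have h2 : diag b (e x) = diag a x := e.map_app x
      rw [diag_apply, diag_apply] at h2
      simp only [f, LinearMap.coe_mk, AddHom.coe_mk, Fin.append_left, Fin.append_right,
        Units.val_neg, neg_mul, Finset.sum_neg_distrib]
      rw [h2, add_neg_cancel]
    · rw [LinearMap.finrank_range_of_inj hf]
      simp
      ring
  have h3 : cl (Fin.append a (fun i => -b i)) = cl a - cl b := by
    simp only [cl, Fin.sum_univ_add, Fin.append_left, Fin.append_right, br_neg,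
      Finset.sum_neg_distrib, sub_eq_add_neg]
  rw [h3] at h1
  exact sub_eq_zero.1 h1

lemma equiv_of_eq1 {a b : Fin 1 → Kˣ} (u : Kˣ) (h : a 0 = b 0 * u ^ 2) :
    (diag a).Equivalent (diag b) := by
  refine ⟨⟨LinearEquiv.smulOfUnit (M := Fin 1 → K) u, fun x => ?_⟩⟩
  show diag b (u • x) = diag a x
  rw [diag_apply, diag_apply]
  simp [h, Units.smul_def]
  ring

/-- `⟨a, b⟩ = ⟨c, abc⟩` for `c = a x² + b y²`. -/
lemma equiv_of_val {a b c x y : K} {u v : Fin 2 → Kˣ} (hu : (u 0 : K) = a) (hu' : (u 1 : K) = b)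
    (hv : (v 0 : K) = c) (hv' : (v 1 : K) = a * b * c) (hc : a * x ^ 2 + b * y ^ 2 = c) :
    (diag u).Equivalent (diag v) := by
  have ha0 : a ≠ 0 := hu ▸ (u 0).ne_zero
  have hb0 : b ≠ 0 := hu' ▸ (u 1).ne_zero
  have hc0 : c ≠ 0 := hv ▸ (v 0).ne_zero
  -- new coordinates: `(s, t) ↦ s (x, y) + t (-b y, a x)`, inverse map
  let M : Matrix (Fin 2) (Fin 2) K := !![x, -b * y; y, a * x]
  have hM : M.det = c := by
    simp [M, Matrix.det_fin_two]
    linear_combination hc
  have hMu : IsUnit M.det := by rw [hM]; exact hc0.isUnit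
  let e : (Fin 2 → K) ≃ₗ[K] (Fin 2 → K) := Matrix.toLinearEquiv' M (M.invertibleOfIsUnitDet hMu)
  have he : ∀ z, diag u (e z) = diag v z := by
    intro z
    have h1 : e z = M.mulVec z := rfl
    rw [diag_apply, diag_apply, h1]
    simp only [Fin.sum_univ_two, hu, hu', hv, hv', M, Matrix.mulVec, dotProduct,
      Matrix.of_apply, Matrix.cons_val', Matrix.cons_val_zero, Matrix.cons_val_one,
      Matrix.cons_val_fin_one]
    rw [← hc]
    ring
  exact QuadraticMap.Equivalent.symm ⟨⟨e, he⟩⟩

lemma wittIdeal_eq (hS : S_SOUND) : wittIdeal K = relIdeal K := by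
  apply le_antisymm
  · refine Ideal.span_le.2 ?_
    rintro x (⟨n, a, b, h, rfl⟩ | rfl)
    · exact Wmk_eq.1 (by rw [mk_diagSum, mk_diagSum]; exact cl_eq_of_equivalent hS h)
    · refine Wmk_eq_zero.1 ?_
      rw [mk_diagSum, cl, Fin.sum_univ_two]
      simp [br_neg]
  · have hsub : ∀ {n : ℕ} {a b : Fin n → Kˣ}, (diag a).Equivalent (diag b) →
        diagSum a - diagSum b ∈ wittIdeal K := fun h => Ideal.subset_span (Or.inl ⟨_, _, _, h, rfl⟩)
    have hyp : diagSum (![1, -1] : Fin 2 → Kˣ) ∈ wittIdeal K := Ideal.subset_span (Or.inr rfl)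
    refine Ideal.span_le.2 ?_
    rintro x ((⟨a, b, rfl⟩ | ⟨a, rfl⟩) | ⟨a, b, c, h, rfl⟩)
    · have := hsub (equiv_of_eq1 (a := ![a * b ^ 2]) (b := ![a]) b (by simp))
      simpa [diagSum_eq] using this
    · -- `⟨a, -a⟩ = ⟨1, -a²⟩`, `⟨-a²⟩ = ⟨-1⟩`
      have h1 := hsub (equiv_of_val (u := ![a, -a]) (v := ![1, -a ^ 2]) (a := (a : K)) (b := -a)
        (c := 1) (x := ((a : K)⁻¹ + 1) / 2) (y := ((a : K)⁻¹ - 1) / 2) (by simp) (by simp) (by simp)
        (by simp; ring) (by
          have ha := a.ne_zero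
          field_simp
          ring))
      have h2 := hsub (equiv_of_eq1 (a := ![-a ^ 2]) (b := ![-1]) a (by simp))
      have h3 := (wittIdeal K).add_mem ((wittIdeal K).add_mem h1 h2) hyp
      simp only [diagSum_eq, Fin.sum_univ_two, Matrix.cons_val_zero, Matrix.cons_val_one,
        Finset.univ_unique, Fin.default_eq_zero, Finset.sum_singleton, Fin.isValue] at h3
      have h4 : gen a + gen (-a) = gen a + gen (-a) - (gen 1 + gen (-a ^ 2)) +
          (gen (-a ^ 2) - gen (-1)) + (gen 1 + gen (-1)) := by abel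
      rw [SetLike.mem_coe, h4]
      exact h3
    · have := hsub (equiv_of_val (u := ![a, b]) (v := ![c, a * b * c]) (a := (a : K)) (b := b) (c := c)
        (x := 1) (y := 1) (by simp) (by simp) (by simp) (by simp) (by simpa using h))
      simpa [diagSum_eq, Fin.sum_univ_two] using this

/-- Torsion in powers of the fundamental ideal. -/
lemma itors (hS : S_SOUND) (hD : S_DISC) {n : ℕ} (h : TorsZero n K) : ITorsZero n K := by
  intro ξ hξ hN
  obtain ⟨N, hN0, hN⟩ := hN
  set e : WittRing K ≃+* W K := Ideal.quotEquivOfEq (wittIdeal_eq hS) with he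
  have hcl : ∀ {m : ℕ} (a : Fin m → Kˣ), e (wittClass a) = cl a := by
    intro m a
    rw [← mk_diagSum]
    rfl
  have hle : (fundamentalIdeal K).map (e : WittRing K →+* W K) ≤ fI K := by
    rw [fundamentalIdeal, Ideal.map_span]
    refine Ideal.span_le.2 ?_
    rintro _ ⟨_, ⟨m, a, hm, rfl⟩, rfl⟩
    show e (wittClass a) ∈ fI K
    rw [hcl]
    exact ((hD K).1 m a).2 hm
  have h1 : e ξ ∈ fI K ^ n := by
    have : e ξ ∈ ((fundamentalIdeal K) ^ n).map (e : WittRing K →+* W K) :=
      Ideal.mem_map_of_mem (e : WittRing K →+* W K) hξ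
    rw [Ideal.map_pow] at this
    exact Ideal.pow_right_mono hle n this
  have h2 : e ξ = 0 := h _ h1 N hN0 (by
    rw [← nsmul_eq_mul, ← map_nsmul, hN, map_zero])
  exact (map_eq_zero_iff e e.injective).1 h2

end witt

/-- The assembly. -/
theorem final (hWVAL : S_WVAL) (hSOUND : S_SOUND) (hDISC : S_DISC) (hTOW : S_TOW) (hI2 : S_I2)
    (hI3 : S_I3) (hI4 : S_I4) (hLG : S_LG) (hLGT : S_LGT) (hW3 : S_W3) (hH12 : S_H12)
    (hTOWER : S_TOWER)
    (hLAU : ∀ (k : Type) [Field k], ¬ Countable (LaurentSeries k) ∧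
      ∃ i₁ i₂ : RatFunc k →+* LaurentSeries k,
        i₁ RatFunc.X = HahnSeries.single 1 1 ∧ i₂ RatFunc.X = HahnSeries.single (-1) 1 ∧
        (∀ x : k, i₁ (RatFunc.C x) = HahnSeries.C x) ∧ (∀ x : k, i₂ (RatFunc.C x) = HahnSeries.C x)) :
    ∃ (F : Type) (_ : Field F), (2 : RatFunc F) ≠ 0 ∧ 3 ≤ wInvariant (RatFunc F) ∧
      ITorsZero 4 (RatFunc F) := by
  obtain ⟨k, _, _, a, c, hkc, hreal, ha, hf, ha2, hf2, hodd, E, _, _, i, hi, hiE, hU⟩ := hTOWER
  -- torsion in `I²` of the finite extensions of `k`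
  have hl : ∀ (l : Type) [Field l] [Algebra k l] [FiniteDimensional k l], TorsZero 2 l := by
    intro l _ _ _
    have : CharZero l := charZero_of_injective_algebraMap (algebraMap k l).injective
    by_cases hj : ∃ j : l, j ^ 2 = -1
    · exact (hI2 l).1 hj (hTOW k hodd E i hi hiE hU l hj)
    · push Not at hj
      -- the field `l(j)`
      have hirr : Irreducible (X ^ 2 + 1 : l[X]) := by
        have hm : (X ^ 2 + 1 : l[X]).Monic := by monicity!
        have hd : (X ^ 2 + 1 : l[X]).natDegree = 2 := by compute_degree!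
        refine (Polynomial.Monic.irreducible_iff_roots_eq_zero_of_degree_le_three hm
          (by omega) (by omega)).2 ?_
        refine Multiset.eq_zero_of_forall_notMem fun x hx => ?_
        have := (Polynomial.mem_roots'.1 hx).2
        simp only [IsRoot.def, eval_add, eval_pow, eval_X, eval_one] at this
        exact hj x (eq_neg_of_add_eq_zero_left this)
      have : Fact (Irreducible (X ^ 2 + 1 : l[X])) := ⟨hirr⟩
      let l' := AdjoinRoot (X ^ 2 + 1 : l[X])
      have hroot : (AdjoinRoot.root (X ^ 2 + 1 : l[X])) ^ 2 = -1 := by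
        have := AdjoinRoot.eval₂_root (X ^ 2 + 1 : l[X])
        simp only [eval₂_add, eval₂_pow, eval₂_X, eval₂_one] at this
        exact eq_neg_of_add_eq_zero_left this
      have hd : (X ^ 2 + 1 : l[X]).natDegree = 2 := by compute_degree!
      have hfin : Module.finrank l l' = 2 := by
        rw [(AdjoinRoot.powerBasis hirr.ne_zero).finrank, AdjoinRoot.powerBasis_dim, hd]
      have : FiniteDimensional l l' := Module.finite_of_finrank_pos (by omega)
      have : FiniteDimensional k l' := FiniteDimensional.trans k l l'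
      exact (hI2 l).2 hj ⟨l', inferInstance, inferInstance, AdjoinRoot.root _, hroot, hfin,
        hTOW k hodd E i hi hiE hU l' ⟨_, hroot⟩⟩
  -- the field `F`
  obtain ⟨hunc, i₁, i₂, hi₁, hi₂, hC₁, hC₂⟩ := hLAU k
  have hcz : CharZero (LaurentSeries k) :=
    charZero_of_injective_algebraMap (algebraMap k (LaurentSeries k)).injective
  have hcR : Countable (RatFunc k) := by
    have hp : Countable k[X] := by
      have h1 : Function.Surjective (fun l : List k => ∑ i : Fin l.length, C l[i] * X ^ (i : ℕ)) := by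
        intro p
        refine ⟨List.ofFn (fun i : Fin (p.natDegree + 1) => p.coeff i), ?_⟩
        conv_rhs => rw [p.as_sum_range_C_mul_X_pow]
        rw [Finset.sum_range]
        simp only [Fin.getElem_fin, List.getElem_ofFn]
        refine Fintype.sum_equiv (finCongr (by simp)) _ _ fun i => ?_
        simp
      exact h1.countable
    have h2 : Function.Surjective (fun q : k[X] × k[X] =>
        algebraMap k[X] (RatFunc k) q.1 / algebraMap k[X] (RatFunc k) q.2) := by
      intro x
      exact ⟨(x.num, x.denom), x.num_div_denom⟩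
    exact h2.countable
  obtain ⟨F, _, ι, j₁, j₂, hFc, hj₁, hj₂, hLGP⟩ :=
    hLG (LaurentSeries k) (LaurentSeries k) hunc hunc (RatFunc k) hcR i₁ i₂
  have hczF : CharZero F := j₁.charZero
  have hN : ∀ (N : Type) [Field N] [Algebra (LaurentSeries k) N]
      [FiniteDimensional (LaurentSeries k) N], TorsZero 3 N := hI3 k hl
  have hL : ∀ (L : Type) [Field L] [Algebra F L] [FiniteDimensional F L], TorsZero 3 L :=
    hLGT F (LaurentSeries k) (LaurentSeries k) j₁ j₂ hLGP hN hN
  have h4 : TorsZero 4 (RatFunc F) := hI4 F hL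
  have hczR : CharZero (RatFunc F) :=
    charZero_of_injective_algebraMap (algebraMap F (RatFunc F)).injective
  refine ⟨F, inferInstance, two_ne_zero, ?_, itors hSOUND hDISC h4⟩
  -- the form
  set φ : k →+* F := ι.comp RatFunc.C with hφ
  set α : F := ι RatFunc.X with hα
  have hc1 : ∀ x : k, j₁ (φ x) = HahnSeries.C x := by
    intro x
    rw [← hC₁ x, ← hj₁]; rfl
  have hc2 : ∀ x : k, j₂ (φ x) = HahnSeries.C x := by
    intro x
    rw [← hC₂ x, ← hj₂]; rfl
  have ha1 : j₁ α = HahnSeries.single 1 1 := by rw [← hi₁, ← hj₁]; rfl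
  have ha2' : j₂ α = HahnSeries.single (-1) 1 := by rw [← hi₂, ← hj₂]; rfl
  obtain ⟨H1, H2, H3, H4⟩ := hH12 k hodd hreal a c ha hf F φ j₁ j₂ α hc1 hc2 ha1 ha2'
  obtain ⟨r, g, hg⟩ := hf2
  obtain ⟨a₁, a₂, ha12⟩ := ha2
  have hW := hW3 F α (φ a) (φ c) ⟨r, fun i => (g i).map φ, by
      rw [← fpoly_map, hg, Polynomial.map_sum]
      simp only [Polynomial.map_pow]⟩
    ⟨φ a₁, φ a₂, by rw [ha12]; simp⟩ H1 H2 H3 H4
  exact w_ge two_ne_zero hW.1 hW.2.1 hW.2.2

end Pool.Agent.Helper40.W4.Final
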