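import Mathlib

/-!
# Cardinality of the field of Laurent series and two embeddings of the rational functions
-/

set_option autoImplicit false

namespace Pool.Agent.Helper40.W4

open Polynomial
open scoped RatFunc

theorem uncountable_laurent (k : Type) [Field k] : ¬ Countable (LaurentSeries k) := by
  classical
  intro hc
  let g : Set ℕ → PowerSeries k := fun s => PowerSeries.mk fun n => if n ∈ s then (1 : k) else 0
  have hg : Function.Injective g := by
    intro s t h
    ext n
    have h1 : PowerSeries.coeff n (g s) = PowerSeries.coeff n (g t) := by rw [h]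
    simp only [g, PowerSeries.coeff_mk] at h1
    by_cases hs : n ∈ s <;> by_cases ht : n ∈ t <;> simp [hs, ht] at h1 ⊢
  have hi : Function.Injective fun s : Set ℕ => HahnSeries.ofPowerSeries ℤ k (g s) :=
    HahnSeries.ofPowerSeries_injective.comp hg
  obtain ⟨f, hf⟩ := Countable.exists_injective_nat (LaurentSeries k)
  exact Function.cantor_injective _ (hf.comp hi)

theorem inv_alg (k : Type) [Field k] :
    ∃ σ : RatFunc k →+* RatFunc k, σ RatFunc.X = RatFunc.X⁻¹ ∧
      ∀ x : k, σ (RatFunc.C x) = RatFunc.C x := by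
  have ht : Transcendental k (RatFunc.X⁻¹ : RatFunc k) := by
    intro h
    exact RatFunc.transcendental_X (K := k) (IsAlgebraic.inv_iff.1 h)
  have hi : Function.Injective (aeval (R := k) (RatFunc.X⁻¹ : RatFunc k)).toRingHom :=
    transcendental_iff_injective.1 ht
  refine ⟨IsFractionRing.lift (A := k[X]) (K := RatFunc k) hi, ?_, ?_⟩
  · have h1 := IsFractionRing.lift_algebraMap (A := k[X]) (K := RatFunc k) hi X
    rw [RatFunc.algebraMap_X] at h1
    rw [h1]
    simp
  · intro x
    have h1 := IsFractionRing.lift_algebraMap (A := k[X]) (K := RatFunc k) hi (C x)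
    rw [RatFunc.algebraMap_C] at h1
    rw [h1]
    simp [RatFunc.algebraMap_eq_C]

lemma ratFunc_coe_C (k : Type) [Field k] (x : k) :
    algebraMap (RatFunc k) (LaurentSeries k) (RatFunc.C x) = HahnSeries.C x := by
  have h := RatFunc.coe_coe (F := k) (C x)
  rw [Polynomial.coe_C, PowerSeries.coe_C] at h
  rw [h]
  simp

theorem lau_thm : ∀ (k : Type) [Field k], ¬ Countable (LaurentSeries k) ∧
      ∃ i₁ i₂ : RatFunc k →+* LaurentSeries k,
        i₁ RatFunc.X = HahnSeries.single 1 1 ∧ i₂ RatFunc.X = HahnSeries.single (-1) 1 ∧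
        (∀ x : k, i₁ (RatFunc.C x) = HahnSeries.C x) ∧
        (∀ x : k, i₂ (RatFunc.C x) = HahnSeries.C x) := by
  intro k _
  refine ⟨uncountable_laurent k, ?_⟩
  obtain ⟨σ, hσ, hσC⟩ := inv_alg k
  refine ⟨algebraMap (RatFunc k) (LaurentSeries k),
    (algebraMap (RatFunc k) (LaurentSeries k)).comp σ, RatFunc.coe_X, ?_, ?_, ?_⟩
  · rw [RingHom.comp_apply, hσ, map_inv₀, RatFunc.coe_X, HahnSeries.inv_single, inv_one]
  · intro x
    exact ratFunc_coe_C k x
  · intro x
    rw [RingHom.comp_apply, hσC]
    exact ratFunc_coe_C k x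

end Pool.Agent.Helper40.W4
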