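import Pool.Agent.Helper40.W4.Spec

set_option autoImplicit false

/-! The rational step. -/

namespace Pool.Agent.Helper40.W4

open Polynomial Module IntermediateField

/-- A nonsquare stays a nonsquare in a rational function field. -/
lemma not_isSquare_rat {k k' : Type} [Field k] [Field k'] [Algebra k k'] {a : k} (ha : ¬ IsSquare a)
    (u : k') (hu : Transcendental k u) (htop : k⟮u⟯ = ⊤) : ¬ IsSquare (algebraMap k k' a) := by
  rintro ⟨w, hw⟩
  obtain ⟨r, s, hrs⟩ := IntermediateField.mem_adjoin_simple_iff k w |>.1 (htop ▸ IntermediateField.mem_top)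
  have hinj : ∀ p : k[X], aeval u p = 0 → p = 0 := fun p hp => by
    by_contra h0
    exact hu ⟨p, h0, hp⟩
  have ha0 : a ≠ 0 := by
    rintro rfl
    exact ha ⟨0, by simp⟩
  have ha0' : algebraMap k k' a ≠ 0 := (_root_.map_ne_zero _).2 ha0
  have hs : aeval u s ≠ 0 := by
    intro h0
    rw [h0, div_zero] at hrs
    rw [hrs, mul_zero] at hw
    exact ha0' hw
  have hs0 : s ≠ 0 := by
    rintro rfl
    exact hs (map_zero _)
  have h1 : r ^ 2 = C a * s ^ 2 := by
    rw [← sub_eq_zero]
    apply hinj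
    rw [map_sub, map_mul, map_pow, map_pow, aeval_C, hw, hrs]
    field_simp
    ring
  have h2 := congrArg Polynomial.leadingCoeff h1
  rw [leadingCoeff_pow, leadingCoeff_mul, leadingCoeff_pow, leadingCoeff_C] at h2
  have h3 : s.leadingCoeff ≠ 0 := leadingCoeff_ne_zero.2 hs0
  refine ha ⟨r.leadingCoeff / s.leadingCoeff, ?_⟩
  field_simp
  rw [h2]

theorem rat_thm (hFORM : S_FORM) (hEL2R : S_EL2R) : S_RAT := by
  intro k k' _ _ _ _ a s σ σ' hσ hG u hu htop
  exact hFORM k k' a s σ σ' hσ hG (not_isSquare_rat hG.nsq u hu htop)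
    (hEL2R k k' a (s ^ 2) hG.nsq hG.sqf u hu htop)

end Pool.Agent.Helper40.W4
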