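import Pool.Agent.Helper40.W4.Defs

/-!
# Fields with `w ≥ 3` and vanishing torsion in `I⁴`: statements of the parts
-/

set_option autoImplicit false

namespace Pool.Agent.Helper40.W4

open Polynomial Module IntermediateField

/-! ## A. Witt rings -/

/-- WVAL. Classes of diagonal forms: surjectivity, value extraction, isotropic forms. -/
def S_WVAL : Prop :=
  ∀ (K : Type) [Field K] [CharZero K],
    (∀ ξ : W K, ∃ (n : ℕ) (a : Fin n → Kˣ), ξ = cl a) ∧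
    (∀ (n : ℕ) (a : Fin (n + 1) → Kˣ) (x : Fin (n + 1) → K) (v : Kˣ),
      ∑ i, (a i : K) * x i ^ 2 = v → ∃ b : Fin n → Kˣ, cl a = br v + cl b) ∧
    (∀ (n : ℕ) (a : Fin n → Kˣ), Isot (fun i => (a i : K)) →
      ∃ (m : ℕ) (b : Fin m → Kˣ), m + 2 = n ∧ cl a = cl b)

/-- SOUND. The class of a diagonal form is zero iff the form is metabolic; in this case it is
isotropic (unless it is empty). -/
def S_SOUND : Prop :=
  ∀ (K : Type) [Field K] [CharZero K],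
    (∀ (n : ℕ) (a : Fin n → Kˣ), cl a = 0 ↔ Metab (fun i => (a i : K))) ∧
    (∀ (n : ℕ) (a : Fin n → Kˣ), 0 < n → cl a = 0 → Isot (fun i => (a i : K)))

/-- PFI. Torsion is 2-primary. -/
def S_PFI : Prop :=
  ∀ (K : Type) [Field K] [CharZero K] (ξ : W K) (N : ℕ), 0 < N → (N : W K) * ξ = 0 →
    ∃ r : ℕ, (2 : W K) ^ r * ξ = 0

/-- DISC. Parity of the dimension and discriminant. -/
def S_DISC : Prop :=
  ∀ (K : Type) [Field K] [CharZero K],
    (∀ (n : ℕ) (a : Fin n → Kˣ), (cl a ∈ fI K ↔ Even n)) ∧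
    (∀ s : Kˣ, 1 - br s ∈ (fI K) ^ 2 → IsSquare s)

/-- PHI. The two residue homomorphisms of a discrete place, and powers of the fundamental ideal. -/
def S_PHI : Prop :=
  ∀ (K κ : Type) [Field K] [Field κ] [CharZero K] [CharZero κ] (P : DV K κ),
    ∃ d₀ d₁ : W K →+ W κ,
      (∀ a : Kˣ, Odd (P.ord a).toAdd → d₀ (br a) = 0) ∧
      (∀ a : Kˣ, Even (P.ord a).toAdd → d₀ (br a) = br (P.ac a)) ∧
      IsRes P d₁ ∧
      (∀ (n : ℕ), ∀ ξ ∈ (fI K) ^ (n + 1),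
        d₀ ξ ∈ (fI κ) ^ n ∧ d₁ ξ ∈ (fI κ) ^ n ∧ d₀ ξ + d₁ ξ ∈ (fI κ) ^ (n + 1))

/-! ## B. Torsion in `I²` and `I³` -/

/-- UNIQ. Going up for universality of binary forms. -/
def S_UNIQ : Prop :=
  ∀ (E E' : Type) [Field E] [Field E'] [CharZero E] [Algebra E E'], finrank E E' = 2 →
    (∃ i : E, i ^ 2 = -1) → Univ E → Univ E'

/-- TOW. All finite extensions containing `√-1`. -/
def S_TOW : Prop :=
  ∀ (k : Type) [Field k] [CharZero k], OddClosed k →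
    ∀ (E : Type) [Field E] [Algebra k E] (i : E), i ^ 2 = -1 → k⟮i⟯ = ⊤ → Univ E →
    ∀ (l : Type) [Field l] [Algebra k l] [FiniteDimensional k l], (∃ j : l, j ^ 2 = -1) → Univ l

/-- I2. The torsion of `I²`. -/
def S_I2 : Prop :=
  ∀ (l : Type) [Field l] [CharZero l],
    ((∃ j : l, j ^ 2 = -1) → Univ l → TorsZero 2 l) ∧
    ((∀ x : l, x ^ 2 ≠ -1) → (∃ (l' : Type) (_ : Field l') (_ : Algebra l l') (j : l'),
      j ^ 2 = -1 ∧ finrank l l' = 2 ∧ Univ l') → TorsZero 2 l)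

/-- HEN. Finite extensions of `k((z))`. -/
def S_HEN : Prop :=
  ∀ (k : Type) [Field k] [CharZero k] (N : Type) [Field N] [Algebra (LaurentSeries k) N]
    [FiniteDimensional (LaurentSeries k) N],
    ∃ (κ : Type) (_ : Field κ) (_ : Algebra k κ) (P : DV N κ),
      FiniteDimensional k κ ∧ Function.Surjective P.res ∧
      (∀ x : Nˣ, Even (P.ord x).toAdd → IsSquare (P.ac x) → IsSquare x) ∧
      (∀ c : k, ∃ h : algebraMap (LaurentSeries k) N (HahnSeries.C c) ∈ P.O,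
        P.res ⟨_, h⟩ = algebraMap k κ c) ∧
      ∃ z : Nˣ, (z : N) = algebraMap (LaurentSeries k) N (HahnSeries.single 1 1) ∧
        (P.ord z).toAdd * (finrank k κ : ℤ) = finrank (LaurentSeries k) N

/-- I3. The torsion of `I³` for finite extensions of `k((z))`. -/
def S_I3 : Prop :=
  ∀ (k : Type) [Field k] [CharZero k],
    (∀ (l : Type) [Field l] [Algebra k l] [FiniteDimensional k l], TorsZero 2 l) →
    ∀ (N : Type) [Field N] [Algebra (LaurentSeries k) N] [FiniteDimensional (LaurentSeries k) N],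
      TorsZero 3 N

/-! ## C. The exact sequence of Milnor -/

/-- DVP. The `p`-adic places of `F(X)`. -/
def S_DVP : Prop :=
  ∀ (F : Type) [Field F] [CharZero F] (p : F[X]) [Fact (Irreducible p)],
    ∃ P : DV (RatFunc F) (AdjoinRoot p), PolyDV p P

/-- MIL. A class with vanishing residues is constant. -/
def S_MIL : Prop :=
  ∀ (F : Type) [Field F] [CharZero F] (ξ : W (RatFunc F)),
    (∀ (p : F[X]) [Fact (Irreducible p)], p.Monic → ∀ P : DV (RatFunc F) (AdjoinRoot p),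
      PolyDV p P → ∀ d : W (RatFunc F) →+ W (AdjoinRoot p), IsRes P d → d ξ = 0) →
    ∃ η : W F, ξ = Wmap (RatFunc.C) η

/-- I4. -/
def S_I4 : Prop :=
  ∀ (F : Type) [Field F] [CharZero F],
    (∀ (L : Type) [Field L] [Algebra F L] [FiniteDimensional F L], TorsZero 3 L) →
    TorsZero 4 (RatFunc F)

/-! ## D. Amalgamation -/

/-- LGSTEP. Adjoining a generic zero. -/
def S_LGSTEP : Prop :=
  ∀ (M₁ M₂ : Type) [Field M₁] [Field M₂] [CharZero M₁] [CharZero M₂], ¬ Countable M₁ →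
    ¬ Countable M₂ → ∀ (E : Type) [Field E], Countable E →
    ∀ (i₁ : E →+* M₁) (i₂ : E →+* M₂) (p : E[X]), p.Monic → Irreducible p →
    ∀ (n : ℕ), 3 ≤ n → ∀ c : Fin n → E[X], (∀ i, ¬ p ∣ c i) →
    LocIso (p.map i₁) (fun i => (c i).map i₁) → LocIso (p.map i₂) (fun i => (c i).map i₂) →
    ∃ (E' : Type) (_ : Field E') (j₁ : E' →+* M₁) (j₂ : E' →+* M₂) (i : E →+* E'),
      Countable E' ∧ j₁.comp i = i₁ ∧ j₂.comp i = i₂ ∧
      ∃ y : Fin n → E'[X], p.map i ∣ ∑ l, (c l).map i * y l ^ 2 ∧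
        Ideal.span (insert (p.map i) (Set.range y)) = ⊤

/-- CL. Closing off: a chain of subrings that solves all tasks. -/
def S_CL : Prop :=
  ∀ (A : Type) [CommRing A] (P : Subring A → Prop) (T : Type) (coef : T → Set A)
    (Sol : T → Subring A → Prop),
    (∀ t, (coef t).Finite) → (∀ t (S S' : Subring A), S ≤ S' → Sol t S → Sol t S') →
    (∀ S : Subring A, P S → Countable {t // coef t ⊆ S}) →
    (∀ (S : Subring A) (t : T), P S → coef t ⊆ S → ∃ S', S ≤ S' ∧ P S' ∧ Sol t S') →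
    ∀ S₀ : Subring A, P S₀ → ∃ S : ℕ → Subring A, S 0 = S₀ ∧ Monotone S ∧ (∀ n, P (S n)) ∧
      ∀ t, (∀ a ∈ coef t, ∃ n, a ∈ S n) → ∃ n, Sol t (S n)

/-- LG. The field with the local-global principle. -/
def S_LG : Prop :=
  ∀ (M₁ M₂ : Type) [Field M₁] [Field M₂] [CharZero M₁] [CharZero M₂], ¬ Countable M₁ →
    ¬ Countable M₂ → ∀ (E : Type) [Field E], Countable E →
    ∀ (i₁ : E →+* M₁) (i₂ : E →+* M₂),
    ∃ (F : Type) (_ : Field F) (i : E →+* F) (j₁ : F →+* M₁) (j₂ : F →+* M₂),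
      Countable F ∧ j₁.comp i = i₁ ∧ j₂.comp i = i₂ ∧ LGP j₁ j₂

/-- LGT. The local-global principle and torsion in `I³`. -/
def S_LGT : Prop :=
  ∀ (F M₁ M₂ : Type) [Field F] [Field M₁] [Field M₂] [CharZero M₁] [CharZero M₂]
    (j₁ : F →+* M₁) (j₂ : F →+* M₂), LGP j₁ j₂ →
    (∀ (N : Type) [Field N] [Algebra M₁ N] [FiniteDimensional M₁ N], TorsZero 3 N) →
    (∀ (N : Type) [Field N] [Algebra M₂ N] [FiniteDimensional M₂ N], TorsZero 3 N) →
    ∀ (L : Type) [Field L] [Algebra F L] [FiniteDimensional F L], TorsZero 3 L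

/-! ## E. The form of dimension three -/

/-- W3. The form `⟨α f, 1, -γ⟩`, `γ = α + a`, over `F(X)`. -/
def S_W3 : Prop :=
  ∀ (F : Type) [Field F] [CharZero F] (α a c : F),
    (∃ (r : ℕ) (g : Fin r → F[X]), fpoly a c = ∑ i, g i ^ 2) → (∃ a₁ a₂ : F, a = a₁ ^ 2 + a₂ ^ 2) →
    (∀ p : F[X], Irreducible p → Odd p.natDegree → ∀ (m : ℕ) (x y : F[X]) (z : Fin m → F[X]),
      p ∣ C α * x ^ 2 - C (α * (α + a)) * y ^ 2 + ∑ i, z i ^ 2 → p ∣ x ∧ p ∣ y ∧ ∀ i, p ∣ z i) →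
    (∀ p : F[X], Irreducible p → Odd p.natDegree → ∀ (m : ℕ) (x y : F[X]) (z : Fin m → F[X]),
      p ∣ -C (α + a) * x ^ 2 + C α * fpoly a c * y ^ 2 + ∑ i, z i ^ 2 →
        p ∣ x ∧ p ∣ y ∧ ∀ i, p ∣ z i) →
    (∀ (m : ℕ) (x y : F) (z : Fin m → F), α * x ^ 2 - α * (α + a) * y ^ 2 + ∑ i, z i ^ 2 = 0 →
      x = 0 ∧ y = 0 ∧ z = 0) →
    (∀ (m : ℕ) (x y : F) (z : Fin m → F), -(α + a) * x ^ 2 + α * a * y ^ 2 + ∑ i, z i ^ 2 = 0 →
      x = 0 ∧ y = 0 ∧ z = 0) →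
    let q : Fin 3 → RatFunc F :=
      ![RatFunc.C α * algebraMap F[X] (RatFunc F) (fpoly a c), 1, -RatFunc.C (α + a)]
    (∀ i, q i ≠ 0) ∧
    (∃ (n : ℕ) (y : Fin n → Fin 3 → RatFunc F), y ≠ 0 ∧ ∑ k, ∑ i, q i * y k i ^ 2 = 0) ∧
    ∀ w : Fin 3 → RatFunc F, w ≠ 0 → ¬ WIker q w

/-- H12. The hypotheses of W3 from the two embeddings. -/
def S_H12 : Prop :=
  ∀ (k : Type) [Field k] [CharZero k], OddClosed k → FReal k → ∀ a c : k, ¬ IsSquare a →
    (∀ x : k, ¬ IsSquare (a * x ^ 6 + x ^ 5 + c)) →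
    ∀ (F : Type) [Field F] (ι : k →+* F) (j₁ j₂ : F →+* LaurentSeries k) (α : F),
    (∀ x : k, j₁ (ι x) = HahnSeries.C x) → (∀ x : k, j₂ (ι x) = HahnSeries.C x) →
    j₁ α = HahnSeries.single 1 1 → j₂ α = HahnSeries.single (-1) 1 →
    (∀ p : F[X], Irreducible p → Odd p.natDegree → ∀ (m : ℕ) (x y : F[X]) (z : Fin m → F[X]),
      p ∣ C α * x ^ 2 - C (α * (α + ι a)) * y ^ 2 + ∑ i, z i ^ 2 → p ∣ x ∧ p ∣ y ∧ ∀ i, p ∣ z i) ∧
    (∀ p : F[X], Irreducible p → Odd p.natDegree → ∀ (m : ℕ) (x y : F[X]) (z : Fin m → F[X]),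
      p ∣ -C (α + ι a) * x ^ 2 + C α * fpoly (ι a) (ι c) * y ^ 2 + ∑ i, z i ^ 2 →
        p ∣ x ∧ p ∣ y ∧ ∀ i, p ∣ z i) ∧
    (∀ (m : ℕ) (x y : F) (z : Fin m → F), α * x ^ 2 - α * (α + ι a) * y ^ 2 + ∑ i, z i ^ 2 = 0 →
      x = 0 ∧ y = 0 ∧ z = 0) ∧
    (∀ (m : ℕ) (x y : F) (z : Fin m → F), -(α + ι a) * x ^ 2 + α * ι a * y ^ 2 + ∑ i, z i ^ 2 = 0 →
      x = 0 ∧ y = 0 ∧ z = 0)

/-! ## G. The field `k` -/

/-- DEGB. The norm of `A + B Y`. -/
def S_DEGB : Prop :=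
  ∀ (k : Type) [Field k] [CharZero k] (a c : k), ¬ IsSquare a →
    IsDomain (BB k a c) ∧
    (∀ w : BB k a c, w ≠ 0 → QuadraticAlgebra.norm w ≠ 0 ∧ Even (QuadraticAlgebra.norm w).natDegree ∧
      finrank k (BB k a c ⧸ Ideal.span {w}) = (QuadraticAlgebra.norm w).natDegree ∧
      FiniteDimensional k (BB k a c ⧸ Ideal.span {w})) ∧
    (∀ (w : BB k a c) (n : ℕ), w ≠ 0 → ((QuadraticAlgebra.norm w).natDegree ≤ 2 * n ↔
      (w.re.natDegree ≤ n ∧ (w.im = 0 ∨ w.im.natDegree + 3 ≤ n))))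

/-- DED. It is a Dedekind domain. -/
def S_DED : Prop :=
  ∀ (k : Type) [Field k] [CharZero k] (a c : k), ¬ IsSquare a → Squarefree (fpoly a c) →
    IsDedekindDomain (BB k a c)

/-- ADD. Additivity of the codimension of ideals in a Dedekind domain. -/
def S_ADD : Prop :=
  ∀ (k R : Type) [Field k] [CommRing R] [IsDedekindDomain R] [Algebra k R],
    (∀ I : Ideal R, I ≠ ⊥ → FiniteDimensional k (R ⧸ I)) →
    ∀ I J : Ideal R, I ≠ ⊥ → J ≠ ⊥ → finrank k (R ⧸ (I * J)) = finrank k (R ⧸ I) + finrank k (R ⧸ J)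

/-- PT. A rational point contradicts the invariant. -/
def S_PT : Prop :=
  ∀ (k : Type) [Field k] [CharZero k] (a s : k) (σ : k ≃+* k), Good k a s σ →
    ∀ x y : k, σ x = x → σ y = y → y ^ 2 ≠ a * x ^ 6 + x ^ 5 + s ^ 2

/-- ABS. Ideals of `R'` and of `R`, abstract version. `R ⊆ T ⊆ R'`. -/
def S_ABS : Prop :=
  ∀ (R T R' : Type) [CommRing R] [CommRing T] [CommRing R'] [IsDedekindDomain R] [IsDomain T]
    [IsDedekindDomain R'] (f : R →+* T) (g : T →+* R'), Function.Injective f → Function.Injective g →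
    (∀ w : R', ∃ t b : T, IsUnit (g t) ∧ g t * w = g b) →
    (∀ p : Ideal R, p ≠ ⊥ → p.IsPrime → (p.map f).IsPrime) →
    (∀ I : Ideal T, ∃ h ∈ I, ∀ x ∈ I, ∃ c : R, c ≠ 0 ∧ ∃ y, f c * x = h * y) →
    ∀ I' : Ideal R', I' ≠ ⊥ → ∃ (I : Ideal R) (x y : R'), I ≠ ⊥ ∧ x ≠ 0 ∧ y ≠ 0 ∧
      Ideal.span {x} * I' = Ideal.span {y} * I.map (g.comp f)

/-- PIDC. The coordinate ring of a conic without rational points. -/
def S_PIDC : Prop :=
  ∀ (κ : Type) [Field κ] [CharZero κ] (α β : κ), ¬ IsSquare α → β ≠ 0 →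
    (∀ x y : κ, x ^ 2 ≠ α * y ^ 2 + β) →
    ∀ I : Ideal (QuadraticAlgebra κ[X] (C α * X ^ 2 + C β) 0), ∃ w, I = Ideal.span {w}

/-- EL3. Extension of the base field. -/
def S_EL3 : Prop :=
  ∀ (k k' : Type) [Field k] [Field k'] [CharZero k] [Algebra k k'] (a c : k),
    ¬ IsSquare (algebraMap k k' a) →
    ∀ I : Ideal (BB k a c), I ≠ ⊥ →
      finrank k' (BB k' (algebraMap k k' a) (algebraMap k k' c) ⧸
        I.map (bmap (algebraMap k k') (a := a) (c := c) rfl rfl)) = finrank k (BB k a c ⧸ I) ∧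
      ((∃ w', I.map (bmap (algebraMap k k') (a := a) (c := c) rfl rfl) = Ideal.span {w'}) →
        ∃ w, I = Ideal.span {w})

/-- The conclusion of EL2. -/
def EL2 (k k' : Type) [Field k] [Field k'] [Algebra k k'] (a c : k) : Prop :=
  ∀ I' : Ideal (BB k' (algebraMap k k' a) (algebraMap k k' c)), I' ≠ ⊥ →
    ∃ (I : Ideal (BB k a c)) (x y : BB k' (algebraMap k k' a) (algebraMap k k' c)),
      I ≠ ⊥ ∧ x ≠ 0 ∧ y ≠ 0 ∧
      Ideal.span {x} * I' = Ideal.span {y} * I.map (bmap (algebraMap k k') (a := a) (c := c) rfl rfl)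

/-- EL2R. Ideal classes for `k' = k(u)`. -/
def S_EL2R : Prop :=
  ∀ (k k' : Type) [Field k] [Field k'] [CharZero k] [Algebra k k'] (a c : k), ¬ IsSquare a →
    Squarefree (fpoly a c) → ∀ u : k', Transcendental k u → k⟮u⟯ = ⊤ → EL2 k k' a c

/-- EL2C. Ideal classes for the function field of a conic without rational points. -/
def S_EL2C : Prop :=
  ∀ (k k' : Type) [Field k] [Field k'] [CharZero k] [Algebra k k'] (a s : k), ¬ IsSquare a → s ≠ 0 →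
    Squarefree (fpoly a (s ^ 2)) → ∀ (α β : k) (x y : k'), ¬ IsSquare α → β ≠ 0 →
    (∀ x₀ y₀ : k, x₀ ^ 2 ≠ α * y₀ ^ 2 + β) → Transcendental k y →
    x ^ 2 = algebraMap k k' α * y ^ 2 + algebraMap k k' β → adjoin k {x, y} = ⊤ →
    EL2 k k' a (s ^ 2)

/-- NSP. A conic without rational points has no rational points over the function field of
`Y² = f(X)`, which has a rational point. -/
def S_NSP : Prop :=
  ∀ (k : Type) [Field k] [CharZero k] (a s : k), ¬ IsSquare a → s ≠ 0 →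
    ∀ (α β : k), ¬ IsSquare α → β ≠ 0 → (∀ x₀ y₀ : k, x₀ ^ 2 ≠ α * y₀ ^ 2 + β) →
    ∀ (κ : Type) [Field κ] [Algebra (BB k a (s ^ 2)) κ] [IsFractionRing (BB k a (s ^ 2)) κ]
      (φ : k →+* κ), (∀ x, φ x = algebraMap (BB k a (s ^ 2)) κ (algebraMap k (BB k a (s ^ 2)) x)) →
      ¬ IsSquare (φ α) ∧ ∀ x₀ y₀ : κ, x₀ ^ 2 ≠ φ α * y₀ ^ 2 + φ β

/-- FORM. The formal step from EL2 and EL3. -/
def S_FORM : Prop :=
  ∀ (k k' : Type) [Field k] [Field k'] [CharZero k] [Algebra k k'] (a s : k) (σ : k ≃+* k)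
    (σ' : k' ≃+* k'), (∀ x, σ' (algebraMap k k' x) = algebraMap k k' (σ x)) →
    Good k a s σ → ¬ IsSquare (algebraMap k k' a) → EL2 k k' a (s ^ 2) →
    Good k' (algebraMap k k' a) (algebraMap k k' s) σ'

/-- RAT. The rational step. -/
def S_RAT : Prop :=
  ∀ (k k' : Type) [Field k] [Field k'] [CharZero k] [Algebra k k'] (a s : k) (σ : k ≃+* k)
    (σ' : k' ≃+* k'), (∀ x, σ' (algebraMap k k' x) = algebraMap k k' (σ x)) →
    Good k a s σ → ∀ u : k', Transcendental k u → k⟮u⟯ = ⊤ →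
    Good k' (algebraMap k k' a) (algebraMap k k' s) σ'

/-- CON. The conic step. -/
def S_CON : Prop :=
  ∀ (k k' : Type) [Field k] [Field k'] [CharZero k] [Algebra k k'] (a s : k) (σ : k ≃+* k)
    (σ' : k' ≃+* k'), (∀ x, σ' (algebraMap k k' x) = algebraMap k k' (σ x)) →
    Good k a s σ → ∀ (α β : k) (x y : k'), α ≠ 0 → β ≠ 0 → Transcendental k y →
    x ^ 2 = algebraMap k k' α * y ^ 2 + algebraMap k k' β → adjoin k {x, y} = ⊤ →
    Good k' (algebraMap k k' a) (algebraMap k k' s) σ'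

/-- ODD. The odd step. -/
def S_ODD : Prop :=
  ∀ (k k' : Type) [Field k] [Field k'] [CharZero k] [Algebra k k'] (a s : k) (σ : k ≃+* k)
    (σ' : k' ≃+* k'), (∀ x, σ' (algebraMap k k' x) = algebraMap k k' (σ x)) →
    Good k a s σ → FiniteDimensional k k' → Odd (finrank k k') →
    Good k' (algebraMap k k' a) (algebraMap k k' s) σ'

/-- BASE. The base of the tower. -/
def S_BASE : Prop :=
  ∀ (k : Type) [Field k] [CharZero k] (i a s : k), i ^ 2 = -1 → AlgebraicIndependent ℚ ![a, s] →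
    adjoin ℚ {i, a, s} = ⊤ → ∀ σ : k ≃+* k, σ i = i → σ a = a → σ s = -s → Good k a s σ

/-- GRAT. The rational step for `E`. -/
def S_GRAT : Prop :=
  ∀ (E E' : Type) [Field E] [Field E'] [CharZero E] [Algebra E E'] (a c : E), GE E a c →
    ∀ u : E', Transcendental E u → E⟮u⟯ = ⊤ → GE E' (algebraMap E E' a) (algebraMap E E' c)

/-- GCON. The conic step for `E`. -/
def S_GCON : Prop :=
  ∀ (E E' : Type) [Field E] [Field E'] [CharZero E] [Algebra E E'] (a c : E), GE E a c →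
    ∀ (α β : E) (x y : E'), α ≠ 0 → β ≠ 0 → Transcendental E y →
    x ^ 2 = algebraMap E E' α * y ^ 2 + algebraMap E E' β → adjoin E {x, y} = ⊤ →
    GE E' (algebraMap E E' a) (algebraMap E E' c)

/-- GODD. The odd step for `E`. -/
def S_GODD : Prop :=
  ∀ (E E' : Type) [Field E] [Field E'] [CharZero E] [Algebra E E'] (a c : E), GE E a c →
    FiniteDimensional E E' → Odd (finrank E E') → GE E' (algebraMap E E' a) (algebraMap E E' c)

/-- GBASE. The base field. -/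
def S_GBASE : Prop :=
  ∀ (E : Type) [Field E] [CharZero E] (i a c : E), i ^ 2 = -1 → AlgebraicIndependent ℚ ![a, c] →
    adjoin ℚ {i, a, c} = ⊤ → GE E a c

/-- TOWER. The field `k`. -/
def S_TOWER : Prop :=
  ∃ (k : Type) (_ : Field k) (_ : CharZero k) (a c : k), Countable k ∧ FReal k ∧ ¬ IsSquare a ∧
    (∀ x : k, ¬ IsSquare (a * x ^ 6 + x ^ 5 + c)) ∧ (∃ a₁ a₂ : k, a = a₁ ^ 2 + a₂ ^ 2) ∧
    (∃ (r : ℕ) (g : Fin r → k[X]), fpoly a c = ∑ i, g i ^ 2) ∧ OddClosed k ∧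
    ∃ (E : Type) (_ : Field E) (_ : Algebra k E) (i : E), i ^ 2 = -1 ∧ k⟮i⟯ = ⊤ ∧ Univ E

end Pool.Agent.Helper40.W4
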